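import Pool.Agent.Q75.FE.EXJ

set_option autoImplicit false

namespace Q289.FE

open Finset H974 Pool.Agent.H160R2.CV Pool.Agent.H160R2.CV.Quad H362P Q78.FE

theorem gg_nonneg (R : ℕ) (o : Vtx) (F : Finset Edg) : 0 ≤ gg R o F := by
  unfold gg nfl
  exact div_nonneg (ind_nonneg _) (sum_nonneg fun i _ => ind_nonneg _)

theorem nfl_le (R : ℕ) (o : Vtx) (F : Finset Edg) : nfl R o F ≤ 4 := by
  unfold nfl
  have : ∑ i : Fin 4, ind (fl R o i F) ≤ ∑ i : Fin 4, (1 : ℝ) := sum_le_sum fun i _ => ind_le_one _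
  simpa using this

theorem ind_le_nfl (R : ℕ) (o : Vtx) (F : Finset Edg) : ind (fl R o 0 F) ≤ nfl R o F := by
  unfold nfl
  exact single_le_sum (f := fun i : Fin 4 => ind (fl R o i F)) (fun i _ => ind_nonneg _)
    (mem_univ 0)

theorem gg_le_one (R : ℕ) (o : Vtx) (F : Finset Edg) : gg R o F ≤ 1 := by
  unfold gg
  exact div_le_one_of_le₀ (ind_le_nfl R o F) (le_trans (ind_nonneg _) (ind_le_nfl R o F))

theorem gg_ge (R : ℕ) (o : Vtx) (F : Finset Edg) (h : fl R o 0 F) : 1 / 4 ≤ gg R o F := by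
  unfold gg
  rw [ind_of h]
  have h1 : 1 ≤ nfl R o F := by
    have := ind_le_nfl R o F
    rwa [ind_of h] at this
  exact one_div_le_one_div_of_le (by linarith) (nfl_le R o F)

theorem Wt_ne {c p : ℝ} {k0 u m L s : ℕ} {F : Finset Edg} (h : Wt c p k0 u m L s F ≠ 0) :
    Ar c p u m L F ∧ Arm (100 * u) F ∧ ¬ Cr (0, 0) (10 * s) (2 * k0 * (10 * s)) F := by
  by_contra h1
  exact h (ind_not_of h1)

/-- The sum of the indicators of the values near `N`. -/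
theorem sum_ind_near (X N D : ℕ) (Dr : ℝ) (hD : Dr ≤ D) :
    ind (|(X : ℝ) - N| ≤ Dr) ≤
      ∑ k ∈ (range (N + D + 1)).filter (fun k => N ≤ k + D), ind (X = k) := by
  by_cases h : |(X : ℝ) - N| ≤ Dr
  · rw [ind_of h]
    have h' : |(X : ℝ) - N| ≤ D := le_trans h hD
    rw [abs_le] at h'
    have h1 : N ≤ X + D := by
      have : (N : ℝ) ≤ X + D := by linarith [h'.1]
      exact_mod_cast this
    have h2 : X ≤ N + D := by
      have : (X : ℝ) ≤ N + D := by linarith [h'.2]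
      exact_mod_cast this
    have hm : X ∈ (range (N + D + 1)).filter (fun k => N ≤ k + D) := by
      rw [mem_filter, mem_range]
      exact ⟨by omega, h1⟩
    calc (1 : ℝ) = ind (X = X) := (ind_of rfl).symm
      _ ≤ _ := single_le_sum (f := fun k => ind (X = k)) (fun k _ => ind_nonneg _) hm
  · rw [ind_not_of h]
    exact sum_nonneg fun k _ => ind_nonneg _

/-- The arithmetic at the end. -/
theorem core_arith {κ C T K D w M Mm hN Λ : ℝ} (hκ : 0 < κ) (hC : 0 < C) (hT : 1 ≤ T)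
    (hK : 1 ≤ K) (hKT : K ≤ T ^ 2) (hD1 : 1 ≤ D) (hw : 0 ≤ w) (hMm : 1 ≤ Mm)
    (hD : D ≤ 2 * (T ^ (1 / 2 : ℝ) * Mm)) (hM : T ^ (91 / 48 : ℝ) * Mm ≤ M)
    (hTb : 192 * C / κ ^ 11 ≤ T ^ (1 / 2 : ℝ)) (hΛ : Λ = C * w / M ^ 2)
    (h : κ ^ 11 * w / (8 * K) ≤ (2 * D + 1) * (hN + D * Λ)) (hN0 : 0 ≤ hN) :
    κ ^ 11 * w / (48 * K * D) ≤ hN := by
  have hT0 : 0 < T := by linarith
  have hK0 : 0 < K := by linarith
  have hD0 : 0 < D := by linarith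
  have hTp : 0 < T ^ (91 / 48 : ℝ) := Real.rpow_pos_of_pos hT0 _
  have hM0 : 0 < M := lt_of_lt_of_le (mul_pos hTp (by linarith)) hM
  have hκ11 : 0 < κ ^ 11 := by positivity
  have hΛ0 : 0 ≤ Λ := by rw [hΛ]; positivity
  -- 2D+1 ≤ 3D
  have h1 : κ ^ 11 * w / (8 * K) ≤ 3 * D * (hN + D * Λ) := by
    refine le_trans h ?_
    apply mul_le_mul_of_nonneg_right (by linarith)
    positivity
  have h2 : κ ^ 11 * w / (24 * K * D) ≤ hN + D * Λ := by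
    rw [div_le_iff₀ (by positivity)]
    rw [div_le_iff₀ (by positivity)] at h1
    nlinarith
  -- 48 K D² C ≤ κ^11 M²
  have hT12 : (T ^ (1 / 2 : ℝ)) ^ 2 = T := by
    rw [← Real.rpow_natCast, ← Real.rpow_mul hT0.le]; norm_num
  have h3 : D ^ 2 ≤ 4 * T * Mm ^ 2 := by
    calc D ^ 2 ≤ (2 * (T ^ (1 / 2 : ℝ) * Mm)) ^ 2 := pow_le_pow_left₀ hD0.le hD 2
      _ = 4 * (T ^ (1 / 2 : ℝ)) ^ 2 * Mm ^ 2 := by ring
      _ = 4 * T * Mm ^ 2 := by rw [hT12]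
  have h4 : T ^ (91 / 24 : ℝ) * Mm ^ 2 ≤ M ^ 2 := by
    calc T ^ (91 / 24 : ℝ) * Mm ^ 2 = (T ^ (91 / 48 : ℝ) * Mm) ^ 2 := by
          rw [mul_pow, ← Real.rpow_natCast (T ^ (91 / 48 : ℝ)), ← Real.rpow_mul hT0.le]
          norm_num
      _ ≤ M ^ 2 := pow_le_pow_left₀ (by positivity) hM 2
  have h5 : 192 * C * T ^ 3 ≤ κ ^ 11 * T ^ (91 / 24 : ℝ) := by
    rw [div_le_iff₀ hκ11] at hTb
    have h6 : T ^ 3 * T ^ (1 / 2 : ℝ) ≤ T ^ (91 / 24 : ℝ) := by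
      rw [← Real.rpow_natCast, ← Real.rpow_add hT0]
      exact Real.rpow_le_rpow_of_exponent_le hT (by norm_num)
    have h7 : 192 * C * T ^ 3 ≤ T ^ (1 / 2 : ℝ) * κ ^ 11 * T ^ 3 :=
      mul_le_mul_of_nonneg_right hTb (by positivity)
    nlinarith
  have h8 : 48 * K * D ^ 2 * C ≤ κ ^ 11 * M ^ 2 := by
    calc 48 * K * D ^ 2 * C ≤ 48 * T ^ 2 * (4 * T * Mm ^ 2) * C := by gcongr
      _ = 192 * C * T ^ 3 * Mm ^ 2 := by ring
      _ ≤ κ ^ 11 * T ^ (91 / 24 : ℝ) * Mm ^ 2 := by gcongr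
      _ = κ ^ 11 * (T ^ (91 / 24 : ℝ) * Mm ^ 2) := by ring
      _ ≤ κ ^ 11 * M ^ 2 := by gcongr
  have h9 : D * Λ ≤ κ ^ 11 * w / (48 * K * D) := by
    rw [hΛ, le_div_iff₀ (by positivity)]
    have : D * (C * w / M ^ 2) * (48 * K * D) = (48 * K * D ^ 2 * C) * w / M ^ 2 := by ring
    rw [this, div_le_iff₀ (by positivity)]
    nlinarith [mul_le_mul_of_nonneg_right h8 hw]
  have h10 : κ ^ 11 * w / (24 * K * D) = 2 * (κ ^ 11 * w / (48 * K * D)) := by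
    field_simp; ring
  linarith

theorem fin_arith {P κ11 K D w Mm T12 m N B A : ℝ} (hP : 0 < P) (hκ : 0 < κ11) (hK : 1 ≤ K)
    (hD0 : 0 < D) (hT12 : 0 < T12) (hm : 1 ≤ m) (hMm : Mm = m ^ (91 / 48 : ℝ))
    (hD : D ≤ 2 * (T12 * Mm)) (hB : 0 < B) (hN : B * Mm ≤ N) (hA : 0 < A)
    (hw : A * m ^ (-(5 / 48) : ℝ) ≤ w) :
    P * (κ11 / (48 * K)) * (1 / (2 * T12)) * A * B ^ (96 / 91 : ℝ) * N ^ (-(96 / 91) : ℝ) ≤
      P * (κ11 * w / (48 * K * D)) := by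
  have hm0 : 0 < m := by linarith
  have hMm0 : 0 < Mm := by rw [hMm]; positivity
  have hK0 : 0 < K := by linarith
  have hw0 : 0 ≤ w := le_trans (by positivity) hw
  have hN0 : 0 < N := lt_of_lt_of_le (by positivity) hN
  have e1 : Mm ^ (-(96 / 91) : ℝ) = m ^ (-(5 / 48) : ℝ) * Mm⁻¹ := by
    rw [hMm, ← Real.rpow_neg hm0.le, ← Real.rpow_mul hm0.le, ← Real.rpow_add hm0]
    norm_num
  have h1 : B ^ (96 / 91 : ℝ) * N ^ (-(96 / 91) : ℝ) ≤ m ^ (-(5 / 48) : ℝ) * Mm⁻¹ := by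
    have h2 : N ^ (-(96 / 91) : ℝ) ≤ (B * Mm) ^ (-(96 / 91) : ℝ) :=
      Real.rpow_le_rpow_of_nonpos (by positivity) hN (by norm_num)
    calc B ^ (96 / 91 : ℝ) * N ^ (-(96 / 91) : ℝ)
        ≤ B ^ (96 / 91 : ℝ) * (B * Mm) ^ (-(96 / 91) : ℝ) := by gcongr
      _ = Mm ^ (-(96 / 91) : ℝ) := by
          rw [Real.mul_rpow hB.le hMm0.le, ← mul_assoc, ← Real.rpow_add hB]
          norm_num
      _ = _ := e1
  have h3 : (1 / (2 * T12)) * Mm⁻¹ ≤ 1 / D := by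
    rw [← one_div Mm, one_div_mul_one_div]
    apply one_div_le_one_div_of_le hD0
    linarith
  calc P * (κ11 / (48 * K)) * (1 / (2 * T12)) * A * B ^ (96 / 91 : ℝ) * N ^ (-(96 / 91) : ℝ)
      = P * (κ11 / (48 * K)) * (1 / (2 * T12)) * A *
          (B ^ (96 / 91 : ℝ) * N ^ (-(96 / 91) : ℝ)) := by ring
    _ ≤ P * (κ11 / (48 * K)) * (1 / (2 * T12)) * A * (m ^ (-(5 / 48) : ℝ) * Mm⁻¹) := by gcongr
    _ = P * (κ11 / (48 * K)) * (A * m ^ (-(5 / 48) : ℝ)) * ((1 / (2 * T12)) * Mm⁻¹) := by ring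
    _ ≤ P * (κ11 / (48 * K)) * w * (1 / D) := by gcongr
    _ = P * (κ11 * w / (48 * K * D)) := by field_simp

theorem t_FIN (hEXJ : S_EXJ) (hHYBW : S_HYBW) (hFOUR : S_FOUR) (hINV : S_INV) (hCONK : S_CONK)
    (hSMO : S_SMO) (hINF : S_INF) (hLOCW : S_LOCW) (hPHR : S_PHR) : S_FIN := by
  intro k0 hk0 κ a hκ ha
  have hk3 : 3 ≤ k0 := hk0.1
  have hk0R : (0 : ℝ) < k0 := by exact_mod_cast (by omega : 0 < k0)
  obtain ⟨c, cH, c1, H, ρ, T0', hc0, hc1, hcH0, hcH1, hc10, hH0, hE⟩ := hEXJ k0 hk0 κ a hκ ha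
  obtain ⟨C, hC, hF⟩ := hFOUR k0 hk0 κ a hκ ha
  obtain ⟨X, hX⟩ := exists_nat_ge ((192 * C / κ ^ 11) ^ 2)
  refine ⟨c1, ρ, max T0' (max 32 X), hc10, fun τ hτ => ?_⟩
  obtain ⟨T, hT⟩ : ∃ T : ℕ, T = 2 ^ τ := ⟨_, rfl⟩
  have hTR : (2 ^ τ : ℝ) = T := by rw [hT]; push_cast; rfl
  have hTT0 : T0' ≤ T := by rw [hT]; exact le_trans (le_max_left _ _) hτ
  have hT32 : 32 ≤ T := by
    rw [hT]; exact le_trans (le_trans (le_max_left _ _) (le_max_right _ _)) hτ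
  have hTX : X ≤ T := by
    rw [hT]; exact le_trans (le_trans (le_max_right _ _) (le_max_right _ _)) hτ
  have hT1 : (1 : ℝ) ≤ T := by exact_mod_cast (by omega : 1 ≤ T)
  have hT0 : (0 : ℝ) < T := by linarith
  obtain ⟨L, hL⟩ : ∃ L : ℕ, L = T / 20 := ⟨_, rfl⟩
  obtain ⟨K, hK⟩ : ∃ K : ℕ, K = L * (2 * L + 1) := ⟨_, rfl⟩
  have hL1 : 1 ≤ L := by omega
  have hL20 : 20 * L ≤ T := by omega
  have hK1 : 1 ≤ K := by rw [hK]; nlinarith
  have hKT : K ≤ T ^ 2 := by rw [hK]; nlinarith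
  have hKR1 : (1 : ℝ) ≤ K := by exact_mod_cast hK1
  have hKRT : (K : ℝ) ≤ (T : ℝ) ^ 2 := by exact_mod_cast hKT
  have hTb : 192 * C / κ ^ 11 ≤ (T : ℝ) ^ (1 / 2 : ℝ) := by
    have h1 : (192 * C / κ ^ 11) ^ 2 ≤ T := le_trans hX (by exact_mod_cast hTX)
    rw [← Real.sqrt_eq_rpow]
    exact Real.le_sqrt_of_sq_le h1
  set A : ℝ := a * (100 * k0 : ℝ) ^ (-(5 / 48) : ℝ) * (1 / 2 * c ^ ((L + 2) * (2 * L + 1)))
    with hA
  have hA0 : 0 < A := by rw [hA]; positivity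
  refine ⟨(c * cH) ^ K * (κ ^ 11 / (48 * K)) * (1 / (2 * (T : ℝ) ^ (1 / 2 : ℝ))) * A *
    (c1 * (T : ℝ) ^ 2) ^ (96 / 91 : ℝ), by positivity, ?_⟩
  intro p j m N hρj hm hNW hN1 hN2
  rw [← hT] at hNW
  rw [hTR] at hN1 hN2
  obtain ⟨u, hu⟩ : ∃ u : ℕ, u = k0 * m := ⟨_, rfl⟩
  obtain ⟨s, hs⟩ : ∃ s : ℕ, s = 20 * T * u := ⟨_, rfl⟩
  rw [← hu, ← hs] at hNW
  have hm1 : 1 ≤ m := by rw [hm]; exact Nat.one_le_two_pow
  have hmR : (1 : ℝ) ≤ m := by exact_mod_cast hm1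
  have hPm : Pm k0 T m u s L := ⟨hk3, hT32, hm1, hu, hs, hL⟩
  have hu1 : 1 ≤ u := by rw [hu]; exact Nat.mul_pos (by omega) hm1
  have hs_u : 640 * u ≤ s := by rw [hs]; nlinarith
  have hs1 : 1 ≤ s := by omega
  have hm' : m = 2 ^ ρ * 2 ^ (j - ρ) := by
    rw [hm, ← pow_add]; congr 1; omega
  have hp0 : (0 : ℝ) ≤ p := p.2.1
  have hp1 : (p : ℝ) ≤ 1 := p.2.2
  have hp12 : (p : ℝ) ≤ 1 / 2 := hNW.hi
  have hok : Ok (fun _ : Edg => (p : ℝ)) := Q75.FE.ok_const hp0 hp1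
  obtain ⟨hVP, hcHz, hEn⟩ := hE T (2 ^ (j - ρ)) m u s L hPm hTT0 Nat.one_le_two_pow hm' p hNW
  obtain ⟨n, hn⟩ : ∃ n : ℕ, n = 20 * k0 * s + N + 1 := ⟨_, rfl⟩
  have hn1 : 20 * k0 * s ≤ n := by omega
  have hn10 : 10 * s ≤ n := by
    have : 10 * s ≤ 20 * k0 * s := Nat.mul_le_mul_right s (by omega)
    omega
  set Mm : ℝ := (m : ℝ) ^ (91 / 48 : ℝ) with hMm
  have hMm1 : 1 ≤ Mm := Real.one_le_rpow hmR (by norm_num)
  set y : ℝ := H * Mm with hy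
  have hy0 : 0 ≤ y := by rw [hy]; positivity
  obtain ⟨J, hJ, hEJ⟩ := hEn n hn1 N hN1 hN2
  rw [← hK] at hJ hEJ
  obtain ⟨hY1, -, hY3, -⟩ := hHYBW k0 T m u s L hPm c cH y p hp0 hp12 hc0 hc1 hcH0 hcH1 hy0
    hcHz n hn1
  rw [← hK] at hY1 hY3
  obtain ⟨-, -, hW3, hW4, hW5⟩ := hLOCW k0 T m u s L hPm c p hp0 hp12 hVP n hn1
  have hPHR' := hPHR k0 T m u s L hPm κ a p hNW n hn1
  set q : Finset Edg → ℝ := QJ c y p k0 u m L s J with hq
  set w : ℝ := Ex (fun _ => (p : ℝ)) (boxE n) (Wt c p k0 u m L s) with hw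
  have hw0 : 0 ≤ w := Ex_nonneg hok fun F _ => Q75.FE.Wt_nonneg _ _ _ _ _ _ _ F
  have hqw : Ex (fun _ => (p : ℝ)) (boxE n) q = w := hY1 J hJ.le
  have hq0 : ∀ F, 0 ≤ q F := fun F => (hY3 J hJ.le F).1
  have hq1 : ∀ F, (c * cH) ^ K * q F ≤ 1 := fun F => (hY3 J hJ.le F).2.1
  have hq2 : ∀ F, q F = q (F \ LRE s (5 * s) (-(9 * (s : ℤ))) (9 * s)) :=
    fun F => (hY3 J hJ.le F).2.2
  -- the law
  set h : ℕ → ℝ := fun k => Ex (fun _ => (p : ℝ)) (boxE n)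
    (fun F => q F * gg (8 * s) (0, 0) F * ind (Sz n (0, 0) F = k)) with hh
  have hh0 : ∀ k, 0 ≤ h k := fun k => Ex_nonneg hok fun F _ =>
    mul_nonneg (mul_nonneg (hq0 F) (gg_nonneg _ _ _)) (ind_nonneg _)
  set M : ℝ := (s : ℝ) ^ (91 / 48 : ℝ) with hM
  have hsR : (1 : ℝ) ≤ s := by exact_mod_cast hs1
  have hM1 : 1 ≤ M := Real.one_le_rpow hsR (by norm_num)
  have hs2 : s = 20 * k0 * 2 ^ (τ + j) := by
    rw [hs, hu, hT, hm, pow_add]; ring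
  have hdiff : ∀ k, |h (k + 1) - h k| ≤ C * w / M ^ 2 := by
    intro k
    have hc := hINV (fun _ : Edg => (p : ℝ)) hok (boxE n) (fun F => q F * gg (8 * s) (0, 0) F)
      (fun F => Sz n (0, 0) F) (C * w) M (by positivity) hM1 (fun θ hθ => ?_) k
    · exact hc.2.1
    · have := hF p (τ + j) s n (0, 0) hs2 hNW hn10
        (show (0 : ℤ) < (s : ℤ) by exact_mod_cast hs1) q hq0 hq2 θ hθ
      rw [hqw] at this
      exact this
  -- the sum near N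
  set Dr : ℝ := (T : ℝ) ^ (1 / 2 : ℝ) * Mm with hDr
  have hT12 : 1 ≤ (T : ℝ) ^ (1 / 2 : ℝ) := Real.one_le_rpow hT1 (by norm_num)
  have hDr1 : 1 ≤ Dr := by rw [hDr]; nlinarith
  set D : ℕ := ⌈Dr⌉₊ with hD
  have hD1 : Dr ≤ D := Nat.le_ceil _
  have hD2 : (D : ℝ) ≤ 2 * Dr := by
    have := Nat.ceil_lt_add_one (a := Dr) (by linarith)
    rw [← hD] at this
    linarith
  have hsum : κ ^ 11 * w / (8 * K) ≤
      ∑ k ∈ (range (N + D + 1)).filter (fun k => N ≤ k + D), h k := by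
    have e1 : κ ^ 11 * w ≤ Ex (fun _ => (p : ℝ)) (boxE n)
        (fun F => Wt c p k0 u m L s F * ind (HR u T s F)) :=
      le_trans (mul_le_mul_of_nonneg_right hPHR' hw0) hW3
    have e2 : Ex (fun _ => (p : ℝ)) (boxE n) (fun F => q F * ind (HR u T s F) *
        ind (|(Sz n (0, 0) F : ℝ) - N| ≤ Dr)) ≤ 4 *
        ∑ k ∈ (range (N + D + 1)).filter (fun k => N ≤ k + D), h k := by
      rw [hh, ← Ex_sum, ← Ex_mul_left]
      apply Ex_mono hok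
      intro F _
      rw [← mul_sum]
      have e3 : q F * ind (HR u T s F) ≤ 4 * (q F * gg (8 * s) (0, 0) F) := by
        by_cases hb : q F ≠ 0 ∧ HR u T s F
        · obtain ⟨hb1, hb2⟩ := hb
          have hW : Wt c p k0 u m L s F ≠ 0 := by
            intro h0
            apply hb1
            rw [hq]
            unfold QJ
            rw [h0, zero_mul]
          obtain ⟨hAr, hArm, -⟩ := Wt_ne hW
          have hfl := (hCONK k0 T m u s L hPm c p F hAr hArm hb2).2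
          have hg := gg_ge _ _ _ hfl
          rw [ind_of hb2]
          nlinarith [hq0 F]
        · have : q F * ind (HR u T s F) = 0 := by
            by_cases h1 : q F = 0
            · rw [h1, zero_mul]
            · rw [ind_not_of (fun h2 => hb ⟨h1, h2⟩), mul_zero]
          rw [this]
          have := mul_nonneg (hq0 F) (gg_nonneg (8 * s) (0, 0) F)
          linarith
      calc q F * ind (HR u T s F) * ind (|(Sz n (0, 0) F : ℝ) - N| ≤ Dr)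
          ≤ 4 * (q F * gg (8 * s) (0, 0) F) *
            ∑ k ∈ (range (N + D + 1)).filter (fun k => N ≤ k + D), ind (Sz n (0, 0) F = k) := by
            apply mul_le_mul e3 (sum_ind_near _ N D Dr hD1) (ind_nonneg _)
            have := mul_nonneg (hq0 F) (gg_nonneg (8 * s) (0, 0) F)
            linarith
        _ = _ := by ring
    have e4 := le_trans e1 hEJ
    rw [div_le_iff₀ (by positivity)]
    have e5 : 2 * (K : ℝ) * Ex (fun _ => (p : ℝ)) (boxE n) (fun F => q F * ind (HR u T s F) *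
        ind (|(Sz n (0, 0) F : ℝ) - N| ≤ Dr)) ≤ 2 * (K : ℝ) * (4 *
        ∑ k ∈ (range (N + D + 1)).filter (fun k => N ≤ k + D), h k) :=
      mul_le_mul_of_nonneg_left e2 (by positivity)
    refine le_trans (le_trans e4 e5) (le_of_eq (by ring))
  have hΛ0 : 0 ≤ C * w / M ^ 2 := by positivity
  have hsmo := hSMO h (C * w / M ^ 2) (κ ^ 11 * w / (8 * K)) N D hΛ0 hh0 hdiff hsum
  have hTM : (T : ℝ) ^ (91 / 48 : ℝ) * Mm ≤ M := by
    rw [hMm, hM, ← Real.mul_rpow hT0.le (by linarith)]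
    apply Real.rpow_le_rpow (by positivity) _ (by norm_num)
    have : T * m ≤ s := by
      rw [hs, hu]
      nlinarith [Nat.mul_le_mul (Nat.le_refl (T * m)) (by omega : 1 ≤ 20 * k0)]
    exact_mod_cast this
  have hcore := core_arith hκ hC hT1 hKR1 hKRT (le_trans hDr1 hD1) hw0 hMm1 hD2 hTM hTb rfl
    hsmo (hh0 N)
  -- the probability
  have hpf : (c * cH) ^ K * h N ≤ pf p N := by
    rw [hINF p N n (by omega), hh, ← Ex_mul_left]
    unfold Pr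
    apply Ex_mono hok
    intro F _
    have e1 : (c * cH) ^ K * (q F * gg (8 * s) (0, 0) F * ind (Sz n (0, 0) F = N)) =
      ((c * cH) ^ K * q F) * gg (8 * s) (0, 0) F * ind (Sz n (0, 0) F = N) := by ring
    rw [e1]
    have e2 : ((c * cH) ^ K * q F) * gg (8 * s) (0, 0) F ≤ 1 :=
      mul_le_one₀ (hq1 F) (gg_nonneg _ _ _) (gg_le_one _ _ _)
    calc _ ≤ 1 * ind (Sz n (0, 0) F = N) := mul_le_mul_of_nonneg_right e2 (ind_nonneg _)
      _ = _ := by rw [one_mul]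
  -- the weight
  have hwge : A * (m : ℝ) ^ (-(5 / 48) : ℝ) ≤ w := by
    have e1 := hNW.arm (100 * u) (by omega) (by omega)
    have e2 := hW5 hk0
    have e3 : a * ((100 * u : ℕ) : ℝ) ^ (-(5 / 48 : ℝ)) * (1 / 2 * c ^ ((L + 2) * (2 * L + 1)))
        ≤ w := le_trans (mul_le_mul e1 e2 (by positivity)
          (le_trans (by positivity) e1)) hW4
    refine le_trans (le_of_eq ?_) e3
    have e4 : ((100 * u : ℕ) : ℝ) ^ (-(5 / 48 : ℝ)) =
        (100 * k0 : ℝ) ^ (-(5 / 48) : ℝ) * (m : ℝ) ^ (-(5 / 48) : ℝ) := by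
      rw [← Real.mul_rpow (by positivity) (by positivity), hu]
      push_cast
      rw [mul_assoc]
    rw [hA, e4]
    ring
  have hBN : c1 * (T : ℝ) ^ 2 * Mm ≤ N := hN1
  have hfin := fin_arith (P := (c * cH) ^ K) (κ11 := κ ^ 11) (K := K) (D := D) (w := w)
    (Mm := Mm) (T12 := (T : ℝ) ^ (1 / 2 : ℝ)) (m := m) (N := N) (B := c1 * (T : ℝ) ^ 2)
    (A := A) (by positivity) (by positivity) hKR1 (by linarith) (by positivity) hmR rfl hD2
    (by positivity) hBN hA0 hwge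
  refine le_trans hfin (le_trans ?_ hpf)
  exact mul_le_mul_of_nonneg_left hcore (by positivity)

end Q289.FE
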