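import Pool.Agent.Q78.FE.Stm2

set_option autoImplicit false

namespace Q289.FE

open Finset H974 Pool.Agent.H160R2.CV Pool.Agent.H160R2.CV.Quad H362P Q78.FE

theorem sd_inter {F F' B A : Finset Edg} (h : F \ B = F' \ B) (hd : Disjoint B A) :
    F ∩ A = F' ∩ A := by
  ext e
  simp only [mem_inter]
  constructor
  · rintro ⟨h1, h2⟩
    have h3 : e ∈ F \ B := mem_sdiff.mpr ⟨h1, fun h4 => disjoint_left.mp hd h4 h2⟩
    rw [h] at h3
    exact ⟨(mem_sdiff.mp h3).1, h2⟩
  · rintro ⟨h1, h2⟩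
    have h3 : e ∈ F' \ B := mem_sdiff.mpr ⟨h1, fun h4 => disjoint_left.mp hd h4 h2⟩
    rw [← h] at h3
    exact ⟨(mem_sdiff.mp h3).1, h2⟩

theorem sdS_inter {F S A : Finset Edg} (hd : Disjoint S A) : F ∩ A = (F \ S) ∩ A := by
  ext e
  simp only [mem_inter, mem_sdiff]
  constructor
  · rintro ⟨h1, h2⟩
    exact ⟨⟨h1, fun h4 => disjoint_left.mp hd h4 h2⟩, h2⟩
  · rintro ⟨⟨h1, -⟩, h2⟩
    exact ⟨h1, h2⟩

theorem cz_dist {u : ℕ} {i j i' j' : ℤ} (h : ¬ (i = i' ∧ j = j')) :
    200 * u ≤ nv (cz u i j - cz u i' j') := by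
  have key : ∀ a b : ℤ, a ≠ b → 200 * u ≤ (200 * (u : ℤ) * a - 200 * (u : ℤ) * b).natAbs := by
    intro a b hab
    have h1 : 200 * (u : ℤ) * a - 200 * (u : ℤ) * b = ((200 * u : ℕ) : ℤ) * (a - b) := by
      push_cast; ring
    rw [h1, Int.natAbs_mul, Int.natAbs_natCast]
    have h2 : 1 ≤ (a - b).natAbs := by omega
    nlinarith
  unfold nv cz
  simp only [Prod.fst_sub, Prod.snd_sub]
  by_cases h1 : i = i'
  · have h2 : j ≠ j' := fun h3 => h ⟨h1, h3⟩
    exact le_trans (key j j' h2) (le_max_right _ _)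
  · exact le_trans (key i i' h1) (le_max_left _ _)

theorem cz_bd {T u s L : ℕ} (hs : s = 20 * T * u) (hL : L = T / 20) {i j : ℤ}
    (hi : -(L : ℤ) ≤ i) (hi' : i ≤ 1) (hj : -(L : ℤ) ≤ j) (hj' : j ≤ L) :
    -(s : ℤ) ≤ 2 * (cz u i j).1 ∧ (cz u i j).1 ≤ 200 * u ∧ (i ≤ -1 → (cz u i j).1 ≤ -(200 * u)) ∧
      -(s : ℤ) ≤ 2 * (cz u i j).2 ∧ 2 * (cz u i j).2 ≤ s := by
  have h1 : 20 * L ≤ T := by omega
  have h2 : 20 * (L : ℤ) ≤ T := by exact_mod_cast h1
  have hs' : (s : ℤ) = 20 * T * u := by rw [hs]; push_cast; ring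
  have hu0 : (0 : ℤ) ≤ u := by positivity
  have h3 : 400 * (L : ℤ) * u ≤ s := by rw [hs']; nlinarith
  have e1 : (-(L : ℤ)) * u ≤ i * u := mul_le_mul_of_nonneg_right hi hu0
  have e2 : i * (u : ℤ) ≤ 1 * u := mul_le_mul_of_nonneg_right hi' hu0
  have e3 : (-(L : ℤ)) * u ≤ j * u := mul_le_mul_of_nonneg_right hj hu0
  have e4 : j * (u : ℤ) ≤ L * u := mul_le_mul_of_nonneg_right hj' hu0
  unfold cz
  refine ⟨?_, ?_, ?_, ?_, ?_⟩
  · show -(s : ℤ) ≤ 2 * (200 * (u : ℤ) * i)
    nlinarith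
  · show 200 * (u : ℤ) * i ≤ 200 * u
    nlinarith
  · intro hi1
    have e5 : i * (u : ℤ) ≤ (-1) * u := mul_le_mul_of_nonneg_right hi1 hu0
    show 200 * (u : ℤ) * i ≤ -(200 * u)
    nlinarith
  · show -(s : ℤ) ≤ 2 * (200 * (u : ℤ) * j)
    nlinarith
  · show 2 * (200 * (u : ℤ) * j) ≤ s
    nlinarith

theorem gk_idx {L k : ℕ} (hk : k < L * (2 * L + 1)) :
    -(L : ℤ) ≤ -((k / (2 * L + 1) : ℕ) : ℤ) - 1 ∧ -((k / (2 * L + 1) : ℕ) : ℤ) - 1 ≤ -1 ∧
      -(L : ℤ) ≤ ((k % (2 * L + 1) : ℕ) : ℤ) - L ∧ ((k % (2 * L + 1) : ℕ) : ℤ) - L ≤ L := by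
  have h1 : k / (2 * L + 1) < L := Nat.div_lt_of_lt_mul (by rw [mul_comm]; exact hk)
  have h2 : k % (2 * L + 1) < 2 * L + 1 := Nat.mod_lt _ (by omega)
  clear hk
  generalize k / (2 * L + 1) = a at h1 ⊢
  generalize k % (2 * L + 1) = b at h2 ⊢
  omega

theorem gk_dist {u L k k' : ℕ} (h : k ≠ k') : 200 * u ≤ nv (gk u L k - gk u L k') := by
  unfold gk
  apply cz_dist
  rintro ⟨h1, h2⟩
  apply h
  have h3 : k / (2 * L + 1) = k' / (2 * L + 1) := by omega
  have h4 : k % (2 * L + 1) = k' % (2 * L + 1) := by omega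
  rw [← Nat.div_add_mod k (2 * L + 1), ← Nat.div_add_mod k' (2 * L + 1), h3, h4]

theorem Yz_congr (hLOC : S_LOC) {z : Vtx} {u : ℕ} (hu : 1 ≤ u) {F F' : Finset Edg}
    (h : F ∩ bo z (9 * u) = F' ∩ bo z (9 * u)) : Yz z u F = Yz z u F' := by
  unfold Yz
  apply sum_congr rfl
  intro v _
  exact ind_congr ((hLOC z u hu F F').2.2.1 h v)

theorem Yz_nonneg (z : Vtx) (u : ℕ) (F : Finset Edg) : 0 ≤ Yz z u F :=
  sum_nonneg fun _ _ => ind_nonneg _

/-- `Ar` does not look at the blocks. -/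
theorem Ar_block (hLOCV : S_LOCV) {c p : ℝ} {u m L : ℕ} (hp0 : 0 ≤ p) (hp1 : p ≤ 1) (hu : 1 ≤ u)
    {i0 j0 : ℤ} {F F' : Finset Edg} (h : F \ Bl (cz u i0 j0) u = F' \ Bl (cz u i0 j0) u) :
    Ar c p u m L F ↔ Ar c p u m L F' := by
  have key : ∀ i j : ℤ, Vz c p (cz u i j) u m F ↔ Vz c p (cz u i j) u m F' := by
    intro i j
    obtain ⟨-, -, h3, h4⟩ := hLOCV c p (cz u i j) u m hp0 hp1 hu F F'
    by_cases hij : i = i0 ∧ j = j0
    · rw [hij.1, hij.2] at h3 ⊢
      exact h3 h
    · exact h4 (cz u i0 j0) (cz_dist hij) h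
  unfold Ar
  constructor
  · intro hA i j a1 a2 a3 a4
    exact (key i j).1 (hA i j a1 a2 a3 a4)
  · intro hA i j a1 a2 a3 a4
    exact (key i j).2 (hA i j a1 a2 a3 a4)

theorem HR_congr {u T s : ℕ} {F F' : Finset Edg}
    (h : F ∩ LRE (100 * (u : ℤ)) (8 * s) 0 (2 * T * u) =
      F' ∩ LRE (100 * (u : ℤ)) (8 * s) 0 (2 * T * u)) : Q78.FE.HR u T s F ↔ Q78.FE.HR u T s F' := by
  unfold Q78.FE.HR
  rw [LRc_local (F := F) (Finset.Subset.refl _), h,
    ← LRc_local (F := F') (Finset.Subset.refl _)]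

theorem Arm_congr' {k : ℕ} {F F' : Finset Edg} (h : F ∩ boxE k = F' ∩ boxE k) :
    Arm k F ↔ Arm k F' := by
  rw [Arm_local (F := F) (Finset.Subset.refl (boxE k)), h,
    ← Arm_local (F := F') (Finset.Subset.refl (boxE k))]

theorem Cr_congr' {v : Vtx} {r k : ℕ} {F F' : Finset Edg}
    (h : F ∩ (bo v k \ bo v r) = F' ∩ (bo v k \ bo v r)) : Cr v r k F ↔ Cr v r k F' := by
  rw [Cr_loc F, h, ← Cr_loc F']

theorem et_congr (hHIG : S_HIG) {p y : ℝ} {z : Vtx} {k0 u m : ℕ} (hp0 : 0 ≤ p) (hp1 : p ≤ 1)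
    (hk3 : 3 ≤ k0) (hm1 : 1 ≤ m) (hu : u = k0 * m) {F F' : Finset Edg}
    (h : F ∩ bo z (9 * u) = F' ∩ bo z (9 * u)) : et p y z u m F = et p y z u m F' :=
  ((hHIG p y z k0 u m hp0 hp1 hk3 hm1 hu F F').1 h).2.2

theorem t_HYBW (hLOC : S_LOC) (hADD : S_ADD) (hHYB : S_HYB) (hLOCV : S_LOCV) (hHIG : S_HIG)
    (hCONK : S_CONK) (hSUM : S_SUM) : S_HYBW := by
  intro k0 T m u s L hPm c cH y p hp0 hp12 hc0 hc1 hcH0 hcH1 hy hHc n hn
  have hp1 : p ≤ 1 := by linarith
  have hPm' := hPm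
  obtain ⟨hk3, hT32, hm1, hu, hs, hL⟩ := hPm'
  have hu1 : 1 ≤ u := by rw [hu]; exact Nat.mul_pos (by omega) hm1
  have hs_u : 640 * u ≤ s := by rw [hs]; nlinarith
  have hn10 : 60 * s ≤ n := by
    have : 60 * s ≤ 20 * k0 * s := Nat.mul_le_mul_right s (by omega)
    omega
  have hok : Ok (fun _ : Edg => p) := fun _ => ⟨hp0, hp1⟩
  obtain ⟨K, hK⟩ : ∃ K : ℕ, K = L * (2 * L + 1) := ⟨_, rfl⟩
  rw [← hK]
  -- the positions of the gadgets
  have hpos : ∀ k < K, -(s : ℤ) ≤ 2 * (gk u L k).1 ∧ (gk u L k).1 ≤ -(200 * u) ∧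
      -(s : ℤ) ≤ 2 * (gk u L k).2 ∧ 2 * (gk u L k).2 ≤ s := by
    intro k hk
    rw [hK] at hk
    obtain ⟨a1, a2, a3, a4⟩ := gk_idx hk
    obtain ⟨b1, -, b3, b4, b5⟩ := cz_bd (u := u) hs hL a1 (by omega) a3 a4
    exact ⟨b1, b3 a2, b4, b5⟩
  have hBn : ∀ k < K, Bl (gk u L k) u ⊆ boxE n := by
    intro k hk
    obtain ⟨b1, b2, b3, b4⟩ := hpos k hk
    unfold Bl
    rintro ⟨x, y', _ | _⟩ h1
    · simp only [bo, boxE, mem_RE_false] at h1 ⊢; push_cast at h1; omega
    · simp only [bo, boxE, mem_RE_true] at h1 ⊢; push_cast at h1; omega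
  -- what does not look at the blocks
  have hWtb : ∀ k < K, ∀ F F' : Finset Edg, F \ Bl (gk u L k) u = F' \ Bl (gk u L k) u →
      Wt c p k0 u m L s F' = Wt c p k0 u m L s F := by
    intro k hk F F' h
    obtain ⟨b1, b2, b3, b4⟩ := hpos k hk
    unfold Wt
    apply ind_congr
    have c1 : Ar c p u m L F ↔ Ar c p u m L F' := Ar_block hLOCV hp0 hp1 hu1 h
    have c2 : Arm (100 * u) F ↔ Arm (100 * u) F' := by
      apply Arm_congr'
      apply sd_inter h
      rw [Finset.disjoint_left]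
      unfold Bl
      rintro ⟨x, y', _ | _⟩ h1 h2
      · simp only [bo, boxE, mem_RE_false] at h1 h2; push_cast at h1 h2; omega
      · simp only [bo, boxE, mem_RE_true] at h1 h2; push_cast at h1 h2; omega
    have c3 : Cr (0, 0) (10 * s) (2 * k0 * (10 * s)) F ↔
        Cr (0, 0) (10 * s) (2 * k0 * (10 * s)) F' := by
      apply Cr_congr'
      apply sd_inter h
      rw [Finset.disjoint_left]
      unfold Bl
      rintro ⟨x, y', _ | _⟩ h1 h2
      · simp only [bo, mem_sdiff, mem_RE_false] at h1 h2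
        have h3 := h2.2
        push_cast at h1 h3; omega
      · simp only [bo, mem_sdiff, mem_RE_true] at h1 h2
        have h3 := h2.2
        push_cast at h1 h3; omega
    rw [c1, c2, c3]
  have hHRb : ∀ k < K, ∀ F F' : Finset Edg, F \ Bl (gk u L k) u = F' \ Bl (gk u L k) u →
      ind (Q78.FE.HR u T s F') = ind (Q78.FE.HR u T s F) := by
    intro k hk F F' h
    obtain ⟨b1, b2, b3, b4⟩ := hpos k hk
    apply ind_congr
    apply HR_congr
    symm
    apply sd_inter h
    rw [Finset.disjoint_left]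
    unfold Bl
    rintro ⟨x, y', _ | _⟩ h1 h2
    · simp only [bo, mem_LRE_false, mem_RE_false] at h1 h2; push_cast at h1 h2; omega
    · simp only [bo, mem_LRE_true, mem_RE_true] at h1 h2; push_cast at h1 h2; omega
  have hoth : ∀ k < K, ∀ F F' : Finset Edg, F \ Bl (gk u L k) u = F' \ Bl (gk u L k) u →
      ∀ j < K, j ≠ k → et p y (gk u L j) u m F' = et p y (gk u L j) u m F ∧
        Yz (gk u L j) u F' = Yz (gk u L j) u F := by
    intro k hk F F' h j hj hjk
    have hd : Disjoint (Bl (gk u L k) u) (bo (gk u L j) (9 * u)) := by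
      unfold Bl
      apply bo_disj
      have := gk_dist (u := u) (L := L) (Ne.symm hjk)
      omega
    have h1 := (sd_inter h hd).symm
    exact ⟨et_congr hHIG hp0 hp1 hk3 hm1 hu h1, Yz_congr hLOC hu1 h1⟩
  have hVz : ∀ k < K, ∀ F, Wt c p k0 u m L s F ≠ 0 → c ≤ hz p (gk u L k) u m F := by
    intro k hk F hF
    have hA : Ar c p u m L F := by
      by_contra h1
      exact hF (ind_not_of (fun h2 => h1 h2.1))
    rw [hK] at hk
    obtain ⟨a1, a2, a3, a4⟩ := gk_idx hk
    exact (hA _ _ a1 (by omega) a3 a4).2.2.1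
  have hpz : ∀ k < K, ∀ F, Wt c p k0 u m L s F ≠ 0 → c * cH ≤ pz p y (gk u L k) u m F := by
    intro k hk F hF
    have h8 := (hHIG p y (gk u L k) k0 u m hp0 hp1 hk3 hm1 hu F F).2.2.2.2.2.2.2.1 cH (hHc _)
    have := hVz k hk F hF
    nlinarith
  have hccH : 0 < c * cH := mul_pos hc0 hcH0
  have hccH1 : c * cH ≤ 1 := mul_le_one₀ hc1 hcH0.le hcH1
  have hmean : ∀ k < K, ∀ F, Wt c p k0 u m L s F ≠ 0 →
      Ex (fun _ => p) (Bl (gk u L k) u)
        (fun G => et p y (gk u L k) u m ((F \ Bl (gk u L k) u) ∪ G)) = 1 := by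
    intro k hk F hF
    exact (hHIG p y (gk u L k) k0 u m hp0 hp1 hk3 hm1 hu F F).2.2.2.1
      (lt_of_lt_of_le hccH (hpz k hk F hF))
  have het0 : ∀ k F, 0 ≤ et p y (gk u L k) u m F := fun k F =>
    (hHIG p y (gk u L k) k0 u m hp0 hp1 hk3 hm1 hu F F).2.2.2.2.1
  have het1 : ∀ k < K, ∀ F, Wt c p k0 u m L s F ≠ 0 → c * cH * et p y (gk u L k) u m F ≤ 1 := by
    intro k hk F hF
    have h6 := (hHIG p y (gk u L k) k0 u m hp0 hp1 hk3 hm1 hu F F).2.2.2.2.2.1
    have h7 := hpz k hk F hF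
    nlinarith [het0 k F]
  have hWt0 : ∀ F, 0 ≤ Wt c p k0 u m L s F := fun F => ind_nonneg _
  have hQ0 : ∀ J F, 0 ≤ QJ c y p k0 u m L s J F := by
    intro J F
    unfold QJ
    exact mul_nonneg (hWt0 F) (prod_nonneg fun k _ => het0 k F)
  have hatt : ∀ F, Wt c p k0 u m L s F ≠ 0 → Q78.FE.HR u T s F → ∀ k < K,
      att (0, 0) (gk u L k) u F := by
    intro F hF hH k hk
    have hA : Ar c p u m L F ∧ Arm (100 * u) F ∧ ¬ Cr (0, 0) (10 * s) (2 * k0 * (10 * s)) F := by
      by_contra h1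
      exact hF (ind_not_of h1)
    rw [hK] at hk
    obtain ⟨a1, a2, a3, a4⟩ := gk_idx hk
    exact (hCONK k0 T m u s L hPm c p F hA.1 hA.2.1 hH).1 _ _ a1 a2 a3 a4
  have hbx : ∀ k < K, bxz (gk u L k) (9 * u) ⊆ bx n := by
    intro k hk
    obtain ⟨b1, b2, b3, b4⟩ := hpos k hk
    rintro ⟨x, y'⟩ h1
    unfold bxz at h1
    unfold bx
    simp only [mem_product, mem_Icc] at h1 ⊢
    push_cast at h1
    omega
  refine ⟨?_, ?_, ?_, ?_⟩
  · -- (1)
    intro J hJ
    have h1 := (hHYB (fun _ : Edg => p) hok (boxE n) K (fun k => Bl (gk u L k) u) hBn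
      (Wt c p k0 u m L s) (fun _ => 0) (fun _ _ => 0) (fun k => et p y (gk u L k) u m) hWt0
      (fun k _ F => het0 k F) (fun _ _ _ => le_rfl)
      (fun k hk F F' _ _ h => ⟨hWtb k hk F F' h, fun _ => rfl,
        fun j hj hjk => ⟨(hoth k hk F F' h j hj hjk).1, rfl⟩⟩)
      (fun k hk F _ hF => hmean k hk F hF)).1 J hJ (fun _ => 1) (fun _ _ _ _ _ _ _ => rfl)
    have e1 : Ex (fun _ => p) (boxE n) (QJ c y p k0 u m L s J) = Ex (fun _ => p) (boxE n)
        (fun F => Wt c p k0 u m L s F * 1 * ∏ i ∈ range J, et p y (gk u L i) u m F) := by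
      apply Ex_congr
      intro F _
      unfold QJ
      rw [mul_one]
    rw [e1, h1]
    apply Ex_congr
    intro F _
    rw [mul_one]
  · -- (2)
    intro N D hD
    have h2 := (hHYB (fun _ : Edg => p) hok (boxE n) K (fun k => Bl (gk u L k) u) hBn
      (fun F => Wt c p k0 u m L s F * ind (Q78.FE.HR u T s F)) (fun F => (Sz n (0, 0) F : ℝ))
      (fun k F => Yz (gk u L k) u F) (fun k => et p y (gk u L k) u m)
      (fun F => mul_nonneg (hWt0 F) (ind_nonneg _))
      (fun k _ F => het0 k F) (fun _ _ F => Yz_nonneg _ _ F)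
      (fun k hk F F' _ _ h => ?_) (fun k hk F _ hF => ?_)).2 N D hD
    · have e1 : ∀ J, Ex (fun _ => p) (boxE n) (fun F => Wt c p k0 u m L s F *
          ind (Q78.FE.HR u T s F) * (∏ i ∈ range J, et p y (gk u L i) u m F) *
            ind (|(Sz n (0, 0) F : ℝ) - N| ≤ D)) =
          Ex (fun _ => p) (boxE n) (fun F => QJ c y p k0 u m L s J F * ind (Q78.FE.HR u T s F) *
            ind (|(Sz n (0, 0) F : ℝ) - N| ≤ D)) := by
        intro J
        apply Ex_congr
        intro F _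
        unfold QJ
        ring
      have e2 : Ex (fun _ => p) (boxE n) (fun F => Wt c p k0 u m L s F *
          ind (Q78.FE.HR u T s F) * (∏ i ∈ range K, et p y (gk u L i) u m F) *
            ind ((Sz n (0, 0) F : ℝ) ≤ N)) =
          Ex (fun _ => p) (boxE n) (fun F => QJ c y p k0 u m L s K F * ind (Q78.FE.HR u T s F) *
            ind ((Sz n (0, 0) F : ℝ) ≤ N)) := by
        apply Ex_congr
        intro F _
        unfold QJ
        ring
      rw [e2] at h2
      refine le_trans h2 (add_le_add le_rfl (sum_le_sum fun J hJ => add_le_add (le_of_eq (e1 J)) ?_))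
      rw [← Ex_mul_left]
      apply Ex_mono hok
      intro F _
      have hJK := mem_range.mp hJ
      by_cases hF : Wt c p k0 u m L s F = 0
      · rw [hF]; simp
      · have h3 := het1 J hJK F hF
        have h4 : et p y (gk u L J) u m F ≤ (c * cH)⁻¹ := by
          rw [← one_div, le_div_iff₀ hccH]
          linarith
        have h5 : ind (Q78.FE.HR u T s F) * et p y (gk u L J) u m F ≤ (c * cH)⁻¹ := by
          calc _ ≤ 1 * et p y (gk u L J) u m F :=
                mul_le_mul_of_nonneg_right (ind_le_one _) (het0 J F)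
            _ ≤ _ := by rw [one_mul]; exact h4
        calc Wt c p k0 u m L s F * ind (Q78.FE.HR u T s F) * et p y (gk u L J) u m F *
              ind (D < Yz (gk u L J) u F)
            = (ind (Q78.FE.HR u T s F) * et p y (gk u L J) u m F) *
              (ind (D < Yz (gk u L J) u F) * Wt c p k0 u m L s F) := by ring
          _ ≤ (c * cH)⁻¹ * (ind (D < Yz (gk u L J) u F) * Wt c p k0 u m L s F) :=
              mul_le_mul_of_nonneg_right h5 (mul_nonneg (ind_nonneg _) (hWt0 F))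
    · have hWb := hWtb k hk F F' h
      have hHb := hHRb k hk F F' h
      refine ⟨?_, ?_, fun j hj hjk => hoth k hk F F' h j hj hjk⟩
      · show Wt c p k0 u m L s F' * ind (Q78.FE.HR u T s F') =
          Wt c p k0 u m L s F * ind (Q78.FE.HR u T s F)
        rw [hWb, hHb]
      · intro hr
        have hW : Wt c p k0 u m L s F ≠ 0 := left_ne_zero_of_mul hr
        have hH : Q78.FE.HR u T s F := by
          by_contra h1
          exact right_ne_zero_of_mul hr (ind_not_of h1)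
        obtain ⟨b1, b2, b3, b4⟩ := hpos k hk
        apply hADD n (0, 0) (gk u L k) u hu1 _ (hbx k hk) F F' (hatt F hW hH k hk) h
        unfold nv
        simp only [Prod.fst_sub, Prod.snd_sub]
        omega
    · exact hmean k hk F (left_ne_zero_of_mul hF)
  · -- (3)
    intro J hJ F
    refine ⟨hQ0 J F, ?_, ?_⟩
    · unfold QJ
      by_cases hF : Wt c p k0 u m L s F = 0
      · rw [hF]; simp
      · have h1 : (c * cH) ^ J * ∏ k ∈ range J, et p y (gk u L k) u m F ≤ 1 := by
          have e1 : (c * cH) ^ J * ∏ k ∈ range J, et p y (gk u L k) u m F =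
              ∏ k ∈ range J, (c * cH * et p y (gk u L k) u m F) := by
            rw [prod_mul_distrib, prod_const, card_range]
          rw [e1]
          apply prod_le_one
          · intro k _
            exact mul_nonneg hccH.le (het0 k F)
          · intro k hk
            exact het1 k (by have := mem_range.mp hk; omega) F hF
        have h2 : (c * cH) ^ K ≤ (c * cH) ^ J := pow_le_pow_of_le_one hccH.le hccH1 hJ
        have h3 : 0 ≤ ∏ k ∈ range J, et p y (gk u L k) u m F := prod_nonneg fun k _ => het0 k F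
        have h4 : Wt c p k0 u m L s F ≤ 1 := ind_le_one _
        calc (c * cH) ^ K * (Wt c p k0 u m L s F * ∏ k ∈ range J, et p y (gk u L k) u m F)
            ≤ (c * cH) ^ J * (1 * ∏ k ∈ range J, et p y (gk u L k) u m F) := by
              apply mul_le_mul h2 (mul_le_mul_of_nonneg_right h4 h3)
                (mul_nonneg (hWt0 F) h3) (by positivity)
          _ ≤ 1 := by rw [one_mul]; exact h1
    · have hSd : ∀ z : Vtx, ∀ r : ℕ, z.1 + r < s →
          Disjoint (LRE s (5 * s) (-(9 * (s : ℤ))) (9 * s)) (bo z r) := by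
        intro z r hz
        rw [Finset.disjoint_left]
        rintro ⟨x, y', _ | _⟩ h1 h2
        · simp only [bo, mem_LRE_false, mem_RE_false] at h1 h2; omega
        · simp only [bo, mem_LRE_true, mem_RE_true] at h1 h2; omega
      unfold QJ
      congr 1
      · unfold Wt
        apply ind_congr
        have c1 : Ar c p u m L F ↔ Ar c p u m L
            (F \ LRE s (5 * s) (-(9 * (s : ℤ))) (9 * s)) := by
          have key : ∀ i j : ℤ, -(L : ℤ) ≤ i → i ≤ 1 → -(L : ℤ) ≤ j → j ≤ L →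
              (Vz c p (cz u i j) u m F ↔
                Vz c p (cz u i j) u m (F \ LRE s (5 * s) (-(9 * (s : ℤ))) (9 * s))) := by
            intro i j a1 a2 a3 a4
            apply (hLOCV c p (cz u i j) u m hp0 hp1 hu1 F _).1
            apply sdS_inter
            refine Finset.disjoint_of_subset_right sdiff_subset (hSd _ _ ?_)
            obtain ⟨-, b2, -⟩ := cz_bd (u := u) hs hL a1 a2 a3 a4
            push_cast
            omega
          unfold Ar
          constructor
          · intro hA i j a1 a2 a3 a4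
            exact (key i j a1 a2 a3 a4).1 (hA i j a1 a2 a3 a4)
          · intro hA i j a1 a2 a3 a4
            exact (key i j a1 a2 a3 a4).2 (hA i j a1 a2 a3 a4)
        have c2 : Arm (100 * u) F ↔
            Arm (100 * u) (F \ LRE s (5 * s) (-(9 * (s : ℤ))) (9 * s)) := by
          apply Arm_congr'
          apply sdS_inter
          rw [Finset.disjoint_left]
          rintro ⟨x, y', _ | _⟩ h1 h2
          · simp only [boxE, mem_LRE_false, mem_RE_false] at h1 h2; push_cast at h1 h2; omega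
          · simp only [boxE, mem_LRE_true, mem_RE_true] at h1 h2; push_cast at h1 h2; omega
        have c3 : Cr (0, 0) (10 * s) (2 * k0 * (10 * s)) F ↔
            Cr (0, 0) (10 * s) (2 * k0 * (10 * s))
              (F \ LRE s (5 * s) (-(9 * (s : ℤ))) (9 * s)) := by
          apply Cr_congr'
          apply sdS_inter
          rw [Finset.disjoint_left]
          rintro ⟨x, y', _ | _⟩ h1 h2
          · simp only [bo, mem_sdiff, mem_RE_false, mem_LRE_false] at h1 h2
            have h3 := h2.2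
            push_cast at h1 h3; omega
          · simp only [bo, mem_sdiff, mem_RE_true, mem_LRE_true] at h1 h2
            have h3 := h2.2
            push_cast at h1 h3; omega
        rw [← c1, ← c2, ← c3]
      · apply prod_congr rfl
        intro k hk
        have hkK : k < K := by have := mem_range.mp hk; omega
        obtain ⟨b1, b2, b3, b4⟩ := hpos k hkK
        apply et_congr hHIG hp0 hp1 hk3 hm1 hu
        apply sdS_inter
        apply hSd
        push_cast
        omega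
  · -- (4)
    intro N hN
    rw [show (0 : ℝ) = Ex (fun _ : Edg => p) (boxE n) (fun _ => (0 : ℝ)) from (Ex_const _ _ _).symm]
    apply Ex_congr
    intro F _
    by_contra hne
    have h1 := left_ne_zero_of_mul hne
    have h2 := right_ne_zero_of_mul hne
    have hQ := left_ne_zero_of_mul h1
    have hH : Q78.FE.HR u T s F := by
      by_contra h3
      exact right_ne_zero_of_mul h1 (ind_not_of h3)
    have hSz : (Sz n (0, 0) F : ℝ) ≤ N := by
      by_contra h3
      exact h2 (ind_not_of h3)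
    unfold QJ at hQ
    have hW := left_ne_zero_of_mul hQ
    have hP := right_ne_zero_of_mul hQ
    rw [prod_ne_zero_iff] at hP
    have hHi : ∀ k < K, y ≤ Yz (gk u L k) u F := by
      intro k hk
      have h3 := hP k (mem_range.mpr hk)
      have h4 : Hi y (gk u L k) u m F := by
        by_contra h5
        apply h3
        unfold et
        rw [ind_not_of h5, zero_div]
      exact (hHIG p y (gk u L k) k0 u m hp0 hp1 hk3 hm1 hu F F).2.2.2.2.2.2.1 h4
    have hinj : Set.InjOn (gk u L) (range K : Finset ℕ) := by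
      intro a _ b _ hab
      by_contra hne'
      have h3 := gk_dist (u := u) (L := L) hne'
      rw [hab, sub_self] at h3
      unfold nv at h3
      simp at h3
      omega
    have hsum := hSUM n u (0, 0) ((range K).image (gk u L)) F hu1 (by
      intro z hz
      obtain ⟨k, hk, rfl⟩ := mem_image.mp hz
      exact ⟨hatt F hW hH k (mem_range.mp hk), hbx k (mem_range.mp hk)⟩) (by
      intro z hz z' hz' hzz
      obtain ⟨k, hk, rfl⟩ := mem_image.mp hz
      obtain ⟨k', hk', rfl⟩ := mem_image.mp hz'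
      have h3 : k ≠ k' := fun h4 => hzz (by rw [h4])
      have := gk_dist (u := u) (L := L) h3
      omega)
    rw [sum_image hinj] at hsum
    have h5 : (K : ℝ) * y ≤ ∑ k ∈ range K, Yz (gk u L k) u F := by
      calc (K : ℝ) * y = ∑ k ∈ range K, y := by rw [sum_const, card_range, nsmul_eq_mul]
        _ ≤ _ := sum_le_sum fun k hk => hHi k (mem_range.mp hk)
    linarith

end Q289.FE
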